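import Pool.Agent.H76.AB.Tg
import Pool.Agent.H76.MX.Fx

/-!
Project ABX (MP_78d38b_nt): the positive proportion theorem for an abstract family of Selmer conditions (no row, proved).
`final_countG`: the conditions `Sel P i A B δ` on the classes `ev θ δ` of `L = K(θ)` of the final pairs `(A, B)` are
abstract; `SelHyp` says that they imply the condition `X J` and the local conditions `LW (x u i)` at the places of `Z`.
-/

set_option autoImplicit false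
set_option linter.unusedSectionVars false
open scoped Classical

open WithZero NumberField IsDedekindDomain H38RT
open H38T1 (SC sc scu rep eo la si Pri OddP tp unif ka)
open H76PP H36MX H76MQ H76MX

namespace H76AB

/-- An abstract property of the pair and of the roots at `u`. -/
abbrev LPred (K : Type) [Field K] [NumberField K] : Type :=
  (u : HeightOneSpectrum (𝓞 K)) → 𝓞 K → 𝓞 K → (Fin 3 → Kv u) → Prop

/-- An abstract condition on the coordinates `δ` of the elements of `L = K(θ)` with respect to `1, θ, θ^2`, for the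
index `i`, the pair `(A, B)` and a finite set of places. -/
abbrev SPred (K : Type) [Field K] [NumberField K] (ι : Type*) : Type _ :=
  Finset (HeightOneSpectrum (𝓞 K)) → ι → 𝓞 K → 𝓞 K → (Fin 3 → K) → Prop

/-- The residue class: every member of the family in the class has the roots `e` with the property `Lp`. -/
structure ClassG {K : Type} [Field K] [NumberField K] (C : CfgX K) (Lp : LPred K)
    (m : Ideal (𝓞 K)) (E : ℕ) (A₀ B₀ : 𝓞 K) : Prop where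
  bot : m ≠ ⊥
  two : 2 ≤ E
  inS : ∀ v ∈ C.S, m ≤ v.asIdeal ^ E ∧ dsc A₀ B₀ ∉ v.asIdeal ^ E
  out : ∀ v : HeightOneSpectrum (𝓞 K), v ∉ C.S → m ≤ v.asIdeal → dsc A₀ B₀ ∉ v.asIdeal
  res : ∀ A B : 𝓞 K, A - A₀ ∈ m → B - B₀ ∈ m → ∀ v ∈ C.R, ∀ t : 𝓞 K, t ^ 3 + A * t + B ∉ v.asIdeal
  loc : ∀ A B : 𝓞 K, A - A₀ ∈ m → B - B₀ ∈ m → ∀ u ∈ C.Z, ∃ e : Fin 3 → Kv u,
    Spl (algebraMap K (Kv u) (A : K)) (algebraMap K (Kv u) (B : K)) e ∧ Lp u A B e

/-- The conditions `Sel` for the twist by `D` of a member `(A, B)` of the family imply that the class is in the group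
`X J` of the base curve and satisfies the local conditions `LW (x u i)` at the places of `Z`. -/
structure SelHyp {K : Type} [Field K] [NumberField K] (C : CfgX K) {ι : Type*}
    (x : (u : HeightOneSpectrum (𝓞 K)) → ι → SC (Kv u)) (Lp : LPred K) (Sel : SPred K ι)
    (Z : Set (HeightOneSpectrum (𝓞 K))) : Prop where
  main : ∀ (q₀ : HeightOneSpectrum (𝓞 K)) (T : Finset (HeightOneSpectrum (𝓞 K))) (A B : 𝓞 K)
    (e : (u : HeightOneSpectrum (𝓞 K)) → Fin 3 → Kv u), q₀ ∉ C.S → q₀ ∈ Z →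
    (∀ v ∈ T, v ∉ C.S ∧ v ≠ q₀ ∧ v ∈ Z) → FamX C q₀ T A B e → (∀ u ∈ C.Z, Lp u A B (e u)) →
    ∀ (L : Type) [Field L] [NumberField L] [Algebra K L] (θ : L), HR2 K L A B θ →
    ∀ (Dt : XData C T A B e θ) (J : Finset (HeightOneSpectrum (𝓞 K))), J ⊆ T →
    ∀ D : 𝓞 K, H36MT.TwS C.S q₀ J (D : K) →
    ∀ P : Finset (HeightOneSpectrum (𝓞 K)), C.S ⊆ P → T ⊆ P → q₀ ∈ P →
    ∀ (i : ι) (δ : Fin 3 → K), ev (algebraMap K L (D : K) * θ) δ ≠ 0 →
      IsSquare (Algebra.norm K (ev (algebraMap K L (D : K) * θ) δ)) →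
      Sel P i (D ^ 2 * A) (D ^ 3 * B) δ →
      Dt.X J (sc (ev (algebraMap K L (D : K) * θ) δ)) ∧
        ∀ u : {u // u ∈ C.Z}, LW (x u.1 i) (Dt.loc (sc (ev (algebraMap K L (D : K) * θ) δ)) u).1
          (Dt.loc (sc (ev (algebraMap K L (D : K) * θ) δ)) u).2

/-- The conclusion for one pair. -/
structure SelGood {K : Type} [Field K] [NumberField K] {ι : Type*} (Sel : SPred K ι)
    (P : Finset (HeightOneSpectrum (𝓞 K))) (A B : 𝓞 K) : Prop where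
  two : ∀ v : HeightOneSpectrum (𝓞 K), v.valuation K 2 < 1 → v ∈ P
  ne : 4 * A ^ 3 + 27 * B ^ 2 ≠ 0
  irr : ∀ t : K, t ^ 3 + (A : K) * t + (B : K) ≠ 0
  nice : ∀ v : HeightOneSpectrum (𝓞 K), v ∉ P → H73P2.NiceAt v (A : K) (B : K)
  rel : ∀ (i : ι) (L : Type) [Field L] [NumberField L] [Algebra K L] (θ : L),
    Cub K L (A : K) (B : K) θ → ∀ δ : Fin 3 → K, ev θ δ ≠ 0 → IsSquare (Algebra.norm K (ev θ δ)) →
      Sel P i A B δ → IsSquare (ev θ δ)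

section Main

variable {K : Type} [Field K] [NumberField K]

theorem main_localG {C : CfgX K} (hC : C.Ok) (hH : Hilb K) (hcs : ConicSplit K) {ι : Type*}
    {x : (u : HeightOneSpectrum (𝓞 K)) → ι → SC (Kv u)}
    {W : Submodule (ZMod 2) C.V} (hW : TargetG C x W) {Lp : LPred K} {Sel : SPred K ι}
    {Z : Set (HeightOneSpectrum (𝓞 K))} (hSel : SelHyp C x Lp Sel Z)
    {q₀ : HeightOneSpectrum (𝓞 K)} (hq : q₀ ∉ C.S) (hqZ : q₀ ∈ Z) {k : ℕ} (hk0 : 0 < k)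
    (T : ℕ → Finset (HeightOneSpectrum (𝓞 K))) (b : ℕ → ℕ)
    (hdis : ∀ i < k, ∀ j < k, i ≠ j → Disjoint (T i) (T j))
    (hT : ∀ v ∈ (Finset.range k).biUnion T, v ∉ C.S ∧ v ≠ q₀ ∧ v ∈ Z) {A B : 𝓞 K} {E₀ : ℕ}
    (hF0 : H36MT.FamS C.S E₀ q₀ ((Finset.range k).biUnion T) A B)
    {e : (u : HeightOneSpectrum (𝓞 K)) → Fin 3 → Kv u}
    (hF : FamX C q₀ ((Finset.range k).biUnion T) A B e)
    (hLp : ∀ u ∈ C.Z, Lp u A B (e u))
    (hG : ∀ l < k, GoodSt (C.S ∪ (Finset.range l).biUnion T) (T l) (b l) A B)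
    (hk : b 0 * 2 ^ (Module.finrank ℚ K + 2 * C.Z.card) ≤ 2 ^ k) :
    ∃ J ⊆ (Finset.range k).biUnion T, ∀ D : 𝓞 K, H36MT.TwS C.S q₀ J (D : K) →
      ∀ Sg : Finset (HeightOneSpectrum (𝓞 K)),
      C.S ⊆ Sg → (Finset.range k).biUnion T ⊆ Sg → q₀ ∈ Sg →
      SelGood Sel Sg (D ^ 2 * A) (D ^ 3 * B) := by
  obtain ⟨L, _, _, _, θ, hL⟩ := H24PD.exists_cub (fun t => hF0.no_root t)
  have hR : HR2 K L A B θ := hr2 hL hF0.dsc_ne
  have hT' : ∀ v ∈ (Finset.range k).biUnion T, v ∉ C.S ∧ v ≠ q₀ := fun v hv =>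
    ⟨(hT v hv).1, (hT v hv).2.1⟩
  obtain ⟨Dt⟩ := exists_XData hC hT' hF hL
  have hrec : ∀ c : SC L, c ∈ (HH K (C.S ∪ (Finset.range k).biUnion T) : AddSubgroup (SC L)) →
      C.Q (Dt.loc c) + ∑ v ∈ (Finset.range k).biUnion T,
        eo (Dt.t₂ v) c * (la (Dt.t₁ v) c + Dt.nu v) = 0 := fun c hc =>
    conic_recX hC hH hT' hF hR Dt
      (fun u hu y hy hN ha hb => hcs L (A : K) (B : K) θ Dt.h u (e u) (Dt.hs u hu) y hy hN ha hb) hc
  obtain ⟨J, hJ, hw⟩ := walk_appX hC hH.hf hW.target hq hk0 T b hdis hT' hF hG hk hR Dt hrec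
  refine ⟨J, hJ, fun D hD Sg hCS hTS hqS => ?_⟩
  have hD0 : (D : K) ≠ 0 := hD.ne
  have e1 : ((D ^ 2 * A : 𝓞 K) : K) = (D : K) ^ 2 * (A : K) := by push_cast; rfl
  have e2 : ((D ^ 3 * B : 𝓞 K) : K) = (D : K) ^ 3 * (B : K) := by push_cast; rfl
  refine ⟨?_, ?_, ?_, ?_, ?_⟩
  · intro v hv
    apply hCS
    have h3 : (2 : 𝓞 K) ∈ v.asIdeal := by
      by_contra h
      have h4 := (v.valuation_eq_one_iff_notMem (K := K) (r := (2 : 𝓞 K))).2 h
      have h5 : v.valuation K (2 : K) = 1 := by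
        rw [← h4]
        congr 1
      exact absurd h5 hv.ne
    exact Finset.mem_union_left _ (hC.mem2 v h3)
  · intro h4
    have h5 : (4 * ((D : K) ^ 2 * (A : K)) ^ 3 + 27 * ((D : K) ^ 3 * (B : K)) ^ 2) = 0 := by
      rw [← e1, ← e2, ← H36MT.dsc_coe, h4, map_zero]
    have h6 : (D : K) ^ 6 * (4 * (A : K) ^ 3 + 27 * (B : K) ^ 2) = 0 := by
      linear_combination h5
    exact (mul_ne_zero (pow_ne_zero 6 hD0) hF0.dsc_ne) h6
  · rw [e1, e2]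
    intro t ht
    apply hF0.no_root (t / (D : K))
    have h7 : (D : K) ^ 3 * ((t / (D : K)) ^ 3 + (A : K) * (t / (D : K)) + (B : K)) = 0 := by
      field_simp
      linear_combination ht
    exact (mul_eq_zero.1 h7).resolve_left (pow_ne_zero 3 hD0)
  · rw [e1, e2]
    intro v hv
    have hvS : v ∉ C.S := fun h => hv (hCS h)
    have hvJ : v ∉ J := fun h => hv (hTS (hJ h))
    have hvq : v ≠ q₀ := fun h => hv (h ▸ hqS)
    exact Sc_nice (hF0.sqf v hvS) hD0 (hD.even v hvS hvJ hvq)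
  · rw [e1, e2]
    intro i L' _ _ _ θ' hL' δ hδ hsq hs
    obtain ⟨φ, hφ⟩ := H36MT.Eq_hom (Tg_twist hL hD0) hL'
    have hδ' : ev (algebraMap K L (D : K) * θ) δ ≠ 0 := by
      intro h0
      apply hδ
      rw [← hφ, h0, map_zero]
    have hnorm : Algebra.norm K (ev (algebraMap K L (D : K) * θ) δ) =
        Algebra.norm K (ev θ' δ) := by
      rw [← hφ]
      exact (Algebra.norm_eq_of_algEquiv φ _).symm
    obtain ⟨hX, hLW⟩ := hSel.main q₀ ((Finset.range k).biUnion T) A B e hq hqZ hT hF hLp L θ hR Dt J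
      hJ D hD Sg hCS hTS hqS i δ hδ' (by rw [hnorm]; exact hsq) hs
    obtain ⟨hc1, hc2⟩ := hw _ hX
    have h0 := hc2 (hW.zero i _ hc1 hLW)
    obtain ⟨y, hy⟩ := (H38T1.sc_eq_zero hδ').1 h0
    refine ⟨φ y, ?_⟩
    rw [← hφ, hy, map_mul]

end Main

/-- **The positive proportion theorem** for the abstract conditions `Sel`. -/
theorem final_countG (K : Type) [Field K] [NumberField K] {C : CfgX K} (hC : C.Ok) (hH : Hilb K)
    (hcs : ConicSplit K) {ι : Type*} {x : (u : HeightOneSpectrum (𝓞 K)) → ι → SC (Kv u)}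
    {W : Submodule (ZMod 2) C.V} (hW : TargetG C x W) {Lp : LPred K} {Sel : SPred K ι}
    {m : Ideal (𝓞 K)} {e : ℕ} {A₀ B₀ : 𝓞 K} (hcl : ClassG C Lp m e A₀ B₀)
    {Z : Set (HeightOneSpectrum (𝓞 K))} (hZ : Z.Infinite) (hSel : SelHyp C x Lp Sel Z) :
    ∃ (Sg : Finset (HeightOneSpectrum (𝓞 K))) (c X₀ : ℝ), C.S ⊆ Sg ∧
      (∀ v ∈ Sg, v ∈ C.S ∨ v ∈ Z) ∧ 0 < c ∧ ∀ X : ℝ, X₀ ≤ X →
      ∃ G : Finset (𝓞 K × 𝓞 K),
        (∀ p ∈ G, p ∈ Bx K X ∧ ((∀ s : K →+* ℝ, 0 < s (p.1 : K)) ∧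
          (∀ v ∈ C.R, ∀ t : 𝓞 K, t ^ 3 + p.1 * t + p.2 ∉ v.asIdeal) ∧
          ∀ P : Finset (HeightOneSpectrum (𝓞 K)), Sg ⊆ P → SelGood Sel P p.1 p.2)) ∧
        (∀ p ∈ G, ∀ q ∈ G, p.1 ^ 3 * q.2 ^ 2 = q.1 ^ 3 * p.2 ^ 2 → p = q) ∧
        c * ((Bx K X).ncard : ℝ) ≤ (G.card : ℝ) := by
  have H : Blocks K := blocks_of_HR2 K fun h hd => hr2 h hd
  have hm0 := hcl.bot
  have he := hcl.two
  have hmS := hcl.inS
  have hm := hcl.out
  have hSv : ∀ v : HeightOneSpectrum (𝓞 K), (2 : 𝓞 K) ∈ v.asIdeal → v ∈ C.S := fun v hv =>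
    Finset.mem_union_left _ (hC.mem2 v hv)
  obtain ⟨m', hm'0, hm't, hm'm, hm'S, -⟩ := H36MT.exists_mod hm0 C.S
  obtain ⟨Z', hZ'Z, hZ', hZ'm, hZr⟩ := H30CY.aux_set_in K hm'0 hZ
  have hmZ : ∀ v ∈ Z', ¬ m ≤ v.asIdeal ∧ (6 : 𝓞 K) ∉ v.asIdeal := fun v hv =>
    ⟨fun h => (hZ'm v hv).1 (hm'm.trans h), (hZ'm v hv).2⟩
  have hS6 : ∀ v : HeightOneSpectrum (𝓞 K), ¬ m ≤ v.asIdeal → v ∉ C.S := by
    intro v hv hvS
    exact hv ((hmS v hvS).1.trans (Ideal.pow_le_self (by omega)))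
  obtain ⟨q₀, T, b, k, c, X₀, hq₀, hT, hdis, hk0, hk, hc, hmain⟩ :=
    H36MX.count_main K hSv he hZ' hm0 hmZ hmS hm (Module.finrank ℚ K + 2 * C.Z.card)
  obtain ⟨Ta, hTa⟩ : ∃ Ta : Finset (HeightOneSpectrum (𝓞 K)), Ta = (Finset.range k).biUnion T :=
    ⟨_, rfl⟩
  rw [← hTa] at hmain
  have hTa' : ∀ v ∈ Ta, v ∈ Z' ∧ v ≠ q₀ := by
    intro v hv
    rw [hTa, Finset.mem_biUnion] at hv
    obtain ⟨l, -, hl⟩ := hv
    exact hT l v hl
  have hT0 : T 0 ⊆ Ta := by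
    intro v hv
    rw [hTa, Finset.mem_biUnion]
    exact ⟨0, Finset.mem_range.2 hk0, hv⟩
  obtain ⟨c', X₁, hc', h⟩ := H30CY.count_genS H (S := C.S) (e := e) (q₀ := q₀) (T := Ta) (m' := m')
    (fun J hJ => H36MT.exists_twistS hm'0 hm't hm'S (hZ'm q₀ hq₀).1 fun p hp =>
      hZr q₀ hq₀ p (hTa' p (hJ hp)).1 (hTa' p (hJ hp)).2)
    (fun p => (p.1 - A₀ ∈ m ∧ p.2 - B₀ ∈ m ∧ ∀ s : K →+* ℝ, 0 < s (p.1 : K)) ∧
      ∀ l < k, GoodSt (C.S ∪ (Finset.range l).biUnion T) (T l) (b l) p.1 p.2)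
    (fun p => (∀ s : K →+* ℝ, 0 < s (p.1 : K)) ∧
      (∀ v ∈ C.R, ∀ t : 𝓞 K, t ^ 3 + p.1 * t + p.2 ∉ v.asIdeal) ∧
      ∀ P : Finset (HeightOneSpectrum (𝓞 K)), C.S ∪ insert q₀ Ta ⊆ P →
        SelGood Sel P p.1 p.2) hc (by
      intro X hX
      refine (hmain X hX).trans ?_
      have hfin : {p : 𝓞 K × 𝓞 K | p ∈ Bx K X ∧ H36MT.FamS C.S e q₀ Ta p.1 p.2 ∧
          ((p.1 - A₀ ∈ m ∧ p.2 - B₀ ∈ m ∧ ∀ s : K →+* ℝ, 0 < s (p.1 : K)) ∧
          ∀ l < k, GoodSt (C.S ∪ (Finset.range l).biUnion T) (T l) (b l) p.1 p.2) ∧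
          ¬ H36MT.BadS C.S Ta p.1 p.2}.Finite := (H.fin X).subset fun p hp => hp.1
      refine Nat.cast_le.2 (Set.ncard_le_ncard ?_ hfin)
      rintro p ⟨h1, h2, h3, h4⟩
      refine ⟨h1, h2, ⟨h3, h4⟩, ?_⟩
      have h5 := h4 0 hk0
      rw [Finset.range_zero, Finset.biUnion_empty, Finset.union_empty] at h5
      exact good_not_bad hT0 h5)
    (by
      rintro p hF ⟨hP, hG⟩ -
      obtain ⟨hP1, hP2, hP3⟩ := hP
      have hloc : ∀ u : HeightOneSpectrum (𝓞 K), ∃ e : Fin 3 → Kv u, u ∈ C.Z →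
          Spl (algebraMap K (Kv u) (p.1 : K)) (algebraMap K (Kv u) (p.2 : K)) e ∧
            Lp u p.1 p.2 e := by
        intro u
        by_cases hu : u ∈ C.Z
        · obtain ⟨e, he⟩ := hcl.loc p.1 p.2 hP1 hP2 u hu
          exact ⟨e, fun _ => he⟩
        · exact ⟨fun _ => 0, fun h => absurd h hu⟩
      choose ee hee using hloc
      have hpos : ∀ s : K →+* ℝ, 0 < s ((dsc p.1 p.2 : 𝓞 K) : K) := by
        intro s
        have e1 : ((dsc p.1 p.2 : 𝓞 K) : K) = 4 * (p.1 : K) ^ 3 + 27 * (p.2 : K) ^ 2 := by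
          unfold dsc
          simp only [map_add, map_mul, map_pow, map_ofNat]
        rw [e1, map_add, map_mul, map_mul, map_pow, map_pow, map_ofNat, map_ofNat]
        have h1 := hP3 s
        positivity
      have hFX : FamX C q₀ Ta p.1 p.2 ee := ⟨fun u hu => (hee u hu).1,
        hcl.res p.1 p.2 hP1 hP2, hF.irr, hF.typ, hF.sqf, hpos⟩
      have hF' := hF
      rw [hTa] at hFX hF'
      obtain ⟨J, hJ, hg⟩ := main_localG hC hH hcs hW hSel (hS6 q₀ (hmZ q₀ hq₀).1) (hZ'Z hq₀) hk0 T b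
        (fun i _ j _ hij => hdis i j hij)
        (fun v hv => by
          rw [← hTa] at hv
          exact ⟨hS6 v (hmZ v (hTa' v hv).1).1, (hTa' v hv).2, hZ'Z (hTa' v hv).1⟩) hF' hFX
        (fun u hu => (hee u hu).2) hG hk
      rw [← hTa] at hJ hg
      refine ⟨J, hJ, fun D hDm hD => ⟨?_, ?_, ?_⟩⟩
      · intro s
        change 0 < s ((D ^ 2 * p.1 : 𝓞 K) : K)
        have e1 : ((D ^ 2 * p.1 : 𝓞 K) : K) = (D : K) ^ 2 * (p.1 : K) := by push_cast; rfl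
        rw [e1, map_mul, map_pow]
        exact mul_pos (pow_pos (hD.pos s) 2) (hP3 s)
      · have hDm' := hm'm hDm
        refine hcl.res (D ^ 2 * p.1) (D ^ 3 * p.2) ?_ ?_
        · have e1 : D ^ 2 * p.1 - A₀ = (p.1 - A₀) + (D - 1) * ((D + 1) * p.1) := by ring
          rw [e1]
          exact m.add_mem hP1 (m.mul_mem_right _ hDm')
        · have e1 : D ^ 3 * p.2 - B₀ = (p.2 - B₀) + (D - 1) * ((D ^ 2 + D + 1) * p.2) := by ring
          rw [e1]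
          exact m.add_mem hP2 (m.mul_mem_right _ hDm')
      · intro P hP
        exact hg D hD P (Finset.subset_union_left.trans hP)
          (((Finset.subset_insert _ _).trans Finset.subset_union_right).trans hP)
          (hP (Finset.mem_union_right _ (Finset.mem_insert_self _ _))))
  refine ⟨C.S ∪ insert q₀ Ta, c', X₁, Finset.subset_union_left, fun v hv => ?_, hc', h⟩
  rcases Finset.mem_union.1 hv with h1 | h1
  · exact Or.inl h1
  · right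
    rcases Finset.mem_insert.1 h1 with h2 | h2
    · rw [h2]
      exact hZ'Z hq₀
    · exact hZ'Z (hTa' v h2).1

end H76AB
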