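import Pool.Agent.H76.AB.Tg
import Pool.Agent.H76.AB.Gz

/-!
Project ABX/MG (MP_78d38b_nt): the target subgroup for an arbitrary index type `ι`, types `cl p : ι → D` which depend
on the place `p` above two, arbitrary tests `on p δ i : ι → Prop`, and a distinguished class `m p` for which no tests
are needed (no row, proved).
-/

set_option autoImplicit false
set_option linter.unusedSectionVars false
open scoped Classical

open WithZero NumberField IsDedekindDomain H38RT
open H38T1 (SC sc scu rep eo la si Pri OddP tp unif ka)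
open H76PP H36MX H76MQ H76MX

namespace H76AB

theorem Tw_dual {V : Type} [AddCommGroup V] [Module (ZMod 2) V] (h : V →ₗ[ZMod 2] V →ₗ[ZMod 2] ZMod 2)
    (hnd : ∀ x, x ≠ 0 → ∃ y, h x y = 1) {y : V} (hy : y ≠ 0) (m : V) :
    ∃ μ, h y μ = 1 ∧ (y ≠ m → h m μ = 0) := by
  obtain ⟨μ₁, h1⟩ := hnd y hy
  by_cases hym : y = m
  · exact ⟨μ₁, h1, fun h2 => absurd hym h2⟩
  have hc : ∀ a : ZMod 2, a = 0 ∨ a = 1 := by decide
  rcases hc (h m μ₁) with h2 | h2
  · exact ⟨μ₁, h1, fun _ => h2⟩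
  have hne : y + m ≠ 0 := by
    intro h3
    apply hym
    have h4 : m + m = 0 := by
      rw [← two_smul (ZMod 2) m]
      have : (2 : ZMod 2) = 0 := by decide
      rw [this, zero_smul]
    have h5 : y + m = m + m := by rw [h3, h4]
    exact add_right_cancel h5
  obtain ⟨μ₂, h3⟩ := hnd _ hne
  rw [map_add, LinearMap.add_apply] at h3
  rcases hc (h m μ₂) with h4 | h4
  · rw [h4, add_zero] at h3
    exact ⟨μ₂, h3, fun _ => h4⟩
  · have h5 : h y μ₂ = 0 := by
      rcases hc (h y μ₂) with h6 | h6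
      · exact h6
      · rw [h4, h6] at h3
        exact absurd h3 (by decide)
    refine ⟨μ₁ + μ₂, ?_, fun _ => ?_⟩
    · rw [map_add, h1, h5, add_zero]
    · rw [map_add, h2, h4]
      decide

theorem Tw_abs {P D : Type} [Fintype P] [Fintype D] {r : ℕ} (hr : 0 < r)
    {X : P × Nd D r → Type} [∀ j, AddCommGroup (X j)] [∀ j, Module (ZMod 2) (X j)]
    [∀ j, Finite (X j)] (h : ∀ j, X j →ₗ[ZMod 2] X j →ₗ[ZMod 2] ZMod 2)
    (hsy : ∀ j x y, h j x y = h j y x) (hnd : ∀ j x, x ≠ 0 → ∃ y, h j x y = 1)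
    (η : ∀ j, X j) (hη : ∀ j, η j ≠ 0) (y : (p : P) → D → X (p, none))
    (hy : ∀ p δ, y p δ ≠ 0) (m : (p : P) → X (p, none)) :
    ∃ W₀ : Submodule (ZMod 2) (∀ j, X j × X j),
      (∀ p ∈ W₀, ∑ j, h j (p j).1 (p j).2 = 0) ∧
      Nat.card W₀ = ∏ j, Nat.card (X j) ∧
      ∀ (δ₀ : P → D) (on : P → D → Fin r → Prop) (g : ∀ j, X j), (∀ p i, on p (δ₀ p) i) →
        (∀ p δ, δ ≠ δ₀ p → (∃ i, ¬ on p δ i) ∨ (y p (δ₀ p) = m p ∧ y p δ ≠ m p)) →
        (∀ p, g (p, none) = y p (δ₀ p)) →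
        (∀ p, g (p, some none) = η (p, some none)) →
        (∀ p δ i b, g (p, some (some (δ, i, b))) =
          if on p δ i then η (p, some (some (δ, i, b))) else 0) →
        ∀ q ∈ W₀, (∀ j, ((q j).1 = 0 ∨ (q j).1 = g j) ∧ h j (q j).2 (g j) = 0) → q = 0 := by
  choose μ hμ using fun j => hnd j (η j) (hη j)
  choose μ' hμ' hμ'' using fun p δ => Tw_dual (h (p, none)) (hnd (p, none)) (hy p δ) (m p)
  obtain ⟨lam, hl1, hl2⟩ : ∃ lam : (j : P × Nd D r) → (P × Nd D r) → X j,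
      (∀ p n k, lam (p, some n) k = μ (p, some n)) ∧
      (∀ p δ i k, lam (p, none) (k, ndA δ i) = μ' p δ) :=
    ⟨fun j k => match j with
      | (p, some n) => μ (p, some n)
      | (p, none) => match k.2 with
        | some (some (δ, _, false)) => μ' p δ
        | _ => 0, fun _ _ _ => rfl, fun _ _ _ _ => rfl⟩
  refine ⟨Wst h 0 EJ lam, fun p hp => Q_W0 (Ed := EJ) hsy (fun _ _ e => EJ_symm e) EJ_irr hp,
    card_W hnd 0 EJ lam, ?_⟩
  intro δ₀ on g hon hoff g0 g1 g2 q hq hloc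
  refine graph_zeroW0 hsy hnd hr g (fun p i δ => on p δ i) δ₀ hon ?_ ?_ ?_ ?_ ?_ hq hloc
  · intro p δ hδ
    rcases hoff p δ hδ with h1 | ⟨h1, h2⟩
    · exact Or.inl h1
    · right
      intro i _
      rw [hl2, g0, h1]
      exact hμ'' p δ h2
  · intro p δ i hon z
    refine ⟨fun _ => ?_, fun _ => ?_⟩
    · rw [hl1, g2 p δ i false, if_pos hon]
      exact hμ _
    · rw [hl1, g2 p δ i true, if_pos hon]
      exact hμ _
  · intro p δ i hon
    refine ⟨?_, ?_⟩
    · rw [g2 p δ i false, if_neg hon]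
    · rw [g2 p δ i true, if_neg hon]
  · intro p z _
    rw [hl1, g1]
    exact hμ _
  · intro p i _
    rw [hl2, g0]
    exact hμ' _ _

variable {K : Type} [Field K] [NumberField K]

/-- **The target subgroup.** `P`: the places above two, `cl p a`: the type at `p` of the index `a`; at the places
`pl (p, ndA δ i)`, `pl (p, ndB δ i)` the class of `a` is `η` if `on p δ i a` and `0` otherwise.  A type `δ` must be
separated from the type of `a` by a test, except if the class of `a` at `p` is `m p` and the class of `δ` is not. -/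
theorem exists_targetW {C : CfgX K} (hC : C.Ok) (hH : ∀ v : HeightOneSpectrum (𝓞 K), HF (Kv v))
    {P D : Type} [Fintype P] [Fintype D] {r : ℕ} (hr : 0 < r)
    (pl : P × Nd D r → HeightOneSpectrum (𝓞 K)) (hinj : Function.Injective pl)
    (hZ : ∀ u, u ∈ C.Z ↔ ∃ j, pl j = u) {ι : Type*}
    (x : (u : HeightOneSpectrum (𝓞 K)) → ι → SC (Kv u))
    (η : (u : HeightOneSpectrum (𝓞 K)) → SC (Kv u)) (hη : ∀ u, η u ≠ 0)
    (cl : P → ι → D) (on : P → D → Fin r → ι → Prop) (hon : ∀ p a i, on p (cl p a) i a)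
    (y : (p : P) → D → SC (Kv (pl (p, none)))) (hy : ∀ p δ, y p δ ≠ 0)
    (m : (p : P) → SC (Kv (pl (p, none))))
    (hoff : ∀ p δ a, δ ≠ cl p a → (∃ i, ¬ on p δ i a) ∨ (y p (cl p a) = m p ∧ y p δ ≠ m p))
    (hx0 : ∀ p a, x (pl (p, none)) a = y p (cl p a))
    (hx1 : ∀ p a, x (pl (p, some none)) a = η (pl (p, some none)))
    (hx2 : ∀ p δ i b a, x (pl (p, some (some (δ, i, b)))) a =
      if on p δ i a then η (pl (p, some (some (δ, i, b)))) else 0) :
    ∃ W : Submodule (ZMod 2) C.V, TargetG C x W := by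
  choose h hh using fun j => exists_hscL (hH (pl j))
  have hsy : ∀ j x y, h j x y = h j y x := fun j x y => by rw [hh, hh, H76MX.hsc_comm]
  have hnd : ∀ j x, x ≠ 0 → ∃ y, h j x y = 1 := by
    intro j x hx
    obtain ⟨y, hy⟩ := H76MX.hsc_nd (hH (pl j)) hx
    exact ⟨y, by rw [hh]; exact hy⟩
  have hfin : ∀ j, Finite (SC (Kv (pl j))) := fun j => fin_scv _
  obtain ⟨W₀, h1, h2, h3⟩ := @Tw_abs P D _ _ r hr (fun j => SC (Kv (pl j)))
    (fun j => inferInstance) (fun j => inferInstance) hfin h hsy hnd (fun j => η (pl j))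
    (fun j => hη _) y hy m
  -- the patterns are encoded by elements of `𝓞 K`
  have hPat : Finite (∀ j, SC (Kv (pl j))) := Pi.finite
  have hFt := Fintype.ofFinite (∀ j, SC (Kv (pl j)))
  obtain ⟨enc, henc⟩ : ∃ enc : (∀ j, SC (Kv (pl j))) → 𝓞 K, Function.Injective enc :=
    ⟨fun δ => ((Fintype.equivFin _ δ : ℕ) : 𝓞 K), fun δ δ' h =>
      (Fintype.equivFin _).injective (Fin.ext (Nat.cast_injective h))⟩
  obtain ⟨pat, hpat⟩ : ∃ pat : ι → (∀ j, SC (Kv (pl j))), ∀ a j, pat a j = x (pl j) a :=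
    ⟨fun a j => x (pl j) a, fun _ _ => rfl⟩
  obtain ⟨ch, hch⟩ : ∃ ch : 𝓞 K → Set ι, ∀ a b, b ∈ ch (enc (pat a)) ↔ pat b = pat a :=
    ⟨fun e => {b | enc (pat b) = e}, fun a b => henc.eq_iff⟩
  obtain ⟨W, hW⟩ := target_of hC pl hinj hZ (Set.range fun a => enc (pat a))
    (fun u d => if h : (ch d).Nonempty then x u h.choose else 0) W₀
    (by
      intro p hp
      have h4 := h1 p hp
      simp only [hh] at h4
      exact h4) h2 (by
      rintro _ ⟨a, rfl⟩ q hq hloc
      have hne : (ch (enc (pat a))).Nonempty := ⟨a, (hch a a).2 rfl⟩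
      have hcl : pat hne.choose = pat a := (hch a _).1 hne.choose_spec
      simp only [dif_pos hne] at hloc
      refine h3 (fun p => cl p a) (fun p δ i => on p δ i a) (fun j => x (pl j) a)
        (fun p i => hon p a i) (fun p δ hδ => hoff p δ a hδ) (fun p => hx0 p a)
        (fun p => hx1 p a) (fun p δ i b => hx2 p δ i b a) q hq fun j => ?_
      have h6 := hloc j
      rw [← hpat, hcl, hpat] at h6
      refine ⟨h6.1, ?_⟩
      rw [hh]
      exact h6.2)
  refine ⟨W, hW.sing, hW.card, fun a p hp h => hW.zero (enc (pat a)) ⟨a, rfl⟩ p hp fun u => ?_⟩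
  have hne : (ch (enc (pat a))).Nonempty := ⟨a, (hch a a).2 rfl⟩
  have hcl : pat hne.choose = pat a := (hch a _).1 hne.choose_spec
  obtain ⟨u, hu⟩ := u
  obtain ⟨j, rfl⟩ := (hZ u).1 hu
  have h1 := h ⟨pl j, hu⟩
  simp only [dif_pos hne]
  rw [← hpat, hcl, hpat]
  exact h1

end H76AB
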