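import Pool.Agent.H76.AB.Gc
import Pool.Agent.H76.AB.Tw
import Pool.Agent.H76.MX.Cf

/-!
Project ABX/MG (MP_78d38b_nt): the abstract configuration (no row, proved).
-/

set_option autoImplicit false
set_option linter.unusedSectionVars false
open scoped Classical

open WithZero NumberField IsDedekindDomain H38RT
open H38T1 (SC sc scu rep eo la si Pri OddP tp unif ka)
open H76PP H36MX H76MQ H76MX

namespace H76AB

variable {K : Type} [Field K] [NumberField K]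

/-- There is a residue class modulo a power of `u` for `(A, B)` which gives roots with the property `Lp`. -/
def LocClass (Lp : LPred K) (u : HeightOneSpectrum (𝓞 K)) (a b : 𝓞 K) (N : ℕ) : Prop :=
  dsc a b ∉ u.asIdeal ^ N ∧ ∀ A B : 𝓞 K, A - a ∈ u.asIdeal ^ N → B - b ∈ u.asIdeal ^ N →
    ∃ e : Fin 3 → Kv u, Spl (algebraMap K (Kv u) (A : K)) (algebraMap K (Kv u) (B : K)) e ∧
      Lp u A B e

theorem exists_classG {C : CfgX K} (hC : C.Ok) {Lp : LPred K}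
    (hdy : ∀ u : HeightOneSpectrum (𝓞 K), (2 : 𝓞 K) ∈ u.asIdeal →
      ∃ N : ℕ, LocClass Lp u (-91) (-330) N)
    (hax : ∀ u ∈ C.Z, (2 : 𝓞 K) ∉ u.asIdeal → ∃ (a b : 𝓞 K) (N : ℕ), LocClass Lp u a b N)
    (hZR : ∀ v ∈ C.Z, v ∉ C.R) :
    ∃ (m : Ideal (𝓞 K)) (E : ℕ) (A₀ B₀ : 𝓞 K), ClassG C Lp m E A₀ B₀ := by
  choose b hb using fun v : HeightOneSpectrum (𝓞 K) => H30PN.Rm_noroot v
  obtain ⟨N, hN⟩ : ∃ N : HeightOneSpectrum (𝓞 K) → ℕ, ∀ u : HeightOneSpectrum (𝓞 K),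
      (2 : 𝓞 K) ∈ u.asIdeal → LocClass Lp u (-91) (-330) (N u) := by
    refine ⟨fun u => if h : (2 : 𝓞 K) ∈ u.asIdeal then (hdy u h).choose else 0, ?_⟩
    intro u h
    simp only [dif_pos h]
    exact (hdy u h).choose_spec
  obtain ⟨p, hp⟩ : ∃ p : HeightOneSpectrum (𝓞 K) → 𝓞 K × 𝓞 K × ℕ,
      ∀ u ∈ C.Z, (2 : 𝓞 K) ∉ u.asIdeal → LocClass Lp u (p u).1 (p u).2.1 (p u).2.2 := by
    have h : ∀ u : HeightOneSpectrum (𝓞 K), ∃ p : 𝓞 K × 𝓞 K × ℕ, u ∈ C.Z →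
        (2 : 𝓞 K) ∉ u.asIdeal → LocClass Lp u p.1 p.2.1 p.2.2 := by
      intro u
      by_cases h6 : u ∈ C.Z ∧ (2 : 𝓞 K) ∉ u.asIdeal
      · obtain ⟨a, c, M, hM⟩ := hax u h6.1 h6.2
        exact ⟨(a, c, M), fun _ _ => hM⟩
      · exact ⟨(0, 0, 0), fun h h' => absurd ⟨h, h'⟩ h6⟩
    exact ⟨fun u => (h u).choose, fun u => (h u).choose_spec⟩
  obtain ⟨e, he⟩ : ∃ e : HeightOneSpectrum (𝓞 K) → ℕ,
      e = fun v => if (2 : 𝓞 K) ∈ v.asIdeal then N v else if v ∈ C.R then 1 else (p v).2.2 :=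
    ⟨_, rfl⟩
  obtain ⟨Av, hAv⟩ : ∃ Av : HeightOneSpectrum (𝓞 K) → 𝓞 K,
      Av = fun v => if (2 : 𝓞 K) ∈ v.asIdeal then -91 else if v ∈ C.R then -1 else (p v).1 :=
    ⟨_, rfl⟩
  obtain ⟨Bv, hBv⟩ : ∃ Bv : HeightOneSpectrum (𝓞 K) → 𝓞 K,
      Bv = fun v => if (2 : 𝓞 K) ∈ v.asIdeal then -330 else if v ∈ C.R then b v else (p v).2.1 :=
    ⟨_, rfl⟩
  have hP3 : ∀ v : HeightOneSpectrum (𝓞 K), (2 : 𝓞 K) ∈ v.asIdeal →
      e v = N v ∧ Av v = -91 ∧ Bv v = -330 := by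
    intro v hv
    rw [he, hAv, hBv]
    exact ⟨if_pos hv, if_pos hv, if_pos hv⟩
  have hR3 : ∀ v ∈ C.R, e v = 1 ∧ Av v = -1 ∧ Bv v = b v := by
    intro v hv
    have h2 := hC.R2 v hv
    rw [he, hAv, hBv]
    exact ⟨(if_neg h2).trans (if_pos hv), (if_neg h2).trans (if_pos hv),
      (if_neg h2).trans (if_pos hv)⟩
  have hZ3 : ∀ v ∈ C.Z, (2 : 𝓞 K) ∉ v.asIdeal →
      e v = (p v).2.2 ∧ Av v = (p v).1 ∧ Bv v = (p v).2.1 := by
    intro v hv h2
    have hR := hZR v hv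
    rw [he, hAv, hBv]
    exact ⟨(if_neg h2).trans (if_neg hR), (if_neg h2).trans (if_neg hR),
      (if_neg h2).trans (if_neg hR)⟩
  have hmemZ : ∀ v ∈ C.Z, v ∈ C.S := fun v hv => Finset.mem_union_left _ hv
  have hmemR : ∀ v ∈ C.R, v ∈ C.S := fun v hv => Finset.mem_union_right _ hv
  have hcl : ∀ v ∈ C.S, dsc (Av v) (Bv v) ∉ v.asIdeal ^ e v := by
    intro v hv
    have hpr := v.isPrime
    by_cases h2 : (2 : 𝓞 K) ∈ v.asIdeal
    · obtain ⟨e1, e2, e3⟩ := hP3 v h2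
      rw [e1, e2, e3]
      exact (hN v h2).1
    · rcases Finset.mem_union.1 hv with hv | hv
      · obtain ⟨e1, e2, e3⟩ := hZ3 v hv h2
        rw [e1, e2, e3]
        exact (hp v hv h2).1
      · obtain ⟨e1, e2, e3⟩ := hR3 v hv
        rw [e1, e2, e3, pow_one]
        by_cases h6 : (6 : 𝓞 K) ∈ v.asIdeal
        · have h3 : (3 : 𝓞 K) ∈ v.asIdeal := by
            have h7 : (2 : 𝓞 K) * 3 ∈ v.asIdeal := by
              rw [show (2 : 𝓞 K) * 3 = 6 by norm_num]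
              exact h6
            exact (hpr.mem_or_mem h7).resolve_left h2
          intro h
          have h8 : (2 : 𝓞 K) ^ 2 ∈ v.asIdeal := by
            have e8 : (2 : 𝓞 K) ^ 2 = 3 * (9 * b v ^ 2) - dsc (-1) (b v) := by
              unfold dsc
              ring
            rw [e8]
            exact sub_mem (v.asIdeal.mul_mem_right _ h3) h
          exact h2 (hpr.mem_of_pow_mem 2 h8)
        · refine H30PN.nort_dsc' h6 ?_
          intro t ht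
          apply hb v t
          have e9 : t ^ 3 - t + b v = t ^ 3 + -1 * t + b v := by ring
          rw [e9]
          exact ht
  obtain ⟨m, E, A₀, B₀, hm, hE, h1, h2, h3⟩ := H76MQ.Fq_cls (S := C.S) (R := ∅)
    (fun v hv => hmemZ v (hC.mem2 v hv)) (fun v hv => absurd hv (Finset.notMem_empty v))
    e Av Bv hcl
  have h2nu : ∃ v : HeightOneSpectrum (𝓞 K), (2 : 𝓞 K) ∈ v.asIdeal := by
    obtain ⟨M, hM, h2⟩ := exists_max_ideal_of_mem_nonunits
      (show (2 : 𝓞 K) ∈ nonunits (𝓞 K) by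
        intro h
        obtain ⟨u, hu⟩ := h.exists_right_inv
        have h1 : IsIntegral ℤ ((u : 𝓞 K) : K) := RingOfIntegers.isIntegral_coe u
        have h2 : ((u : 𝓞 K) : K) = algebraMap ℚ K (1 / 2) := by
          have h3 := congrArg (algebraMap (𝓞 K) K) hu
          rw [map_mul, map_ofNat, map_one] at h3
          rw [map_div₀, map_one, map_ofNat, eq_div_iff (two_ne_zero)]
          rw [mul_comm]
          exact h3
        rw [h2] at h1
        have h3 : IsIntegral ℤ (1 / 2 : ℚ) :=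
          (isIntegral_algebraMap_iff (algebraMap ℚ K).injective).1 h1
        obtain ⟨n, hn⟩ := IsIntegrallyClosed.isIntegral_iff.1 h3
        have h4 : (2 * n : ℤ) = 1 := by
          have h5 : ((2 * n : ℤ) : ℚ) = ((1 : ℤ) : ℚ) := by
            push_cast
            have : (n : ℚ) = 1 / 2 := hn
            rw [this]
            norm_num
          exact_mod_cast h5
        omega)
    refine ⟨⟨M, hM.isPrime, ?_⟩, h2⟩
    rintro rfl
    exact two_ne_zero (Ideal.mem_bot.1 h2)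
  have hE2 : 2 ≤ E := by
    by_contra hcon
    have hE1 : E = 1 := by omega
    obtain ⟨v, hv⟩ := h2nu
    have hvS : v ∈ C.S := hmemZ v (hC.mem2 v hv)
    obtain ⟨e1, e2, e3⟩ := hP3 v hv
    have h4 := (h3 A₀ B₀ (by rw [sub_self]; exact Ideal.zero_mem _)
      (by rw [sub_self]; exact Ideal.zero_mem _)).1 v hvS
    rw [e1, e2, e3] at h4
    have hN0 : N v ≠ 0 := by
      intro h0
      apply (hN v hv).1
      rw [h0, pow_zero, Ideal.one_eq_top]
      exact Submodule.mem_top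
    have hA : A₀ - (-91) ∈ v.asIdeal := Ideal.pow_le_self hN0 h4.1
    have hB : B₀ - (-330) ∈ v.asIdeal := Ideal.pow_le_self hN0 h4.2
    apply (h1 v hvS).2
    rw [hE1, pow_one]
    have e6 : dsc A₀ B₀ = (4 * (A₀ ^ 2 - 91 * A₀ + 91 ^ 2)) * (A₀ - (-91)) +
        (27 * (B₀ - 330)) * (B₀ - (-330)) + (-36992) * 2 := by
      unfold dsc
      ring
    rw [e6]
    exact add_mem (add_mem (Ideal.mul_mem_left _ _ hA) (Ideal.mul_mem_left _ _ hB))
      (Ideal.mul_mem_left _ _ hv)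
  refine ⟨m, E, A₀, B₀, hm, hE2, h1, h2, ?_, ?_⟩
  · intro A B hA hB v hv t ht
    have h6 := (h3 A B hA hB).1 v (hmemR v hv)
    obtain ⟨e1, e2, e3⟩ := hR3 v hv
    rw [e1, e2, e3, pow_one] at h6
    apply hb v t
    have e7 : t ^ 3 - t + b v = (t ^ 3 + A * t + B) - t * (A - (-1)) - (B - b v) := by ring
    rw [e7]
    exact sub_mem (sub_mem ht (Ideal.mul_mem_left _ _ h6.1)) h6.2
  · intro A B hA hB u hu
    have h6 := (h3 A B hA hB).1 u (hmemZ u hu)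
    by_cases h2u : (2 : 𝓞 K) ∈ u.asIdeal
    · obtain ⟨e1, e2, e3⟩ := hP3 u h2u
      rw [e1, e2, e3] at h6
      exact (hN u h2u).2 A B h6.1 h6.2
    · obtain ⟨e1, e2, e3⟩ := hZ3 u hu h2u
      rw [e1, e2, e3] at h6
      exact (hp u hu h2u).2 A B h6.1 h6.2

/-- The test `τ` is realised with the sign `s` at infinitely many places of `Aux`: the class of the index `a` is `η u`
if `τ a` and `0` otherwise. -/
def Real {ι : Type*} (η : (u : HeightOneSpectrum (𝓞 K)) → SC (Kv u))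
    (xs : ZMod 2 → (u : HeightOneSpectrum (𝓞 K)) → ι → SC (Kv u))
    (Aux : Set (HeightOneSpectrum (𝓞 K))) (t : ZMod 2 × (ι → Prop)) : Prop :=
  {u : HeightOneSpectrum (𝓞 K) | u ∈ Aux ∧ ∀ a, xs t.1 u a = if t.2 a then η u else 0}.Infinite

/-- **The abstract configuration.**  `cl u a`: the type of the index `a` at the place `u` above two; it determines the class
`xs 0 u a`.  For every `a₀` there are tests which are on for all indices of the type of `a₀` and which separate `a₀` from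
all other indices `a`, except if the class of `a` is `m u` and the class of `a₀` is not. -/
theorem exists_configG (K : Type) [Field K] [NumberField K]
    (hH : ∀ v : HeightOneSpectrum (𝓞 K), HF (Kv v)) {ι : Type*}
    {η : (u : HeightOneSpectrum (𝓞 K)) → SC (Kv u)} (hη : ∀ u, η u ≠ 0)
    (xs : ZMod 2 → (u : HeightOneSpectrum (𝓞 K)) → ι → SC (Kv u)) (Lp : ZMod 2 → LPred K)
    (Aux : Set (HeightOneSpectrum (𝓞 K))) (hAux : ∀ u ∈ Aux, (6 : 𝓞 K) ∉ u.asIdeal)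
    (R₀ : Finset (HeightOneSpectrum (𝓞 K))) (hR₀ : ∀ v ∈ R₀, (2 : 𝓞 K) ∉ v.asIdeal)
    (hne : ∀ u : HeightOneSpectrum (𝓞 K), (2 : 𝓞 K) ∈ u.asIdeal → ∀ a, xs 0 u a ≠ 0)
    (hdy : ∀ u : HeightOneSpectrum (𝓞 K), (2 : 𝓞 K) ∈ u.asIdeal →
      ∃ N : ℕ, LocClass (Lp 0) u (-91) (-330) N)
    (hax : ∀ u ∈ Aux, ∀ s : ZMod 2, ∃ (a b : 𝓞 K) (N : ℕ), LocClass (Lp s) u a b N)
    (hon : Real η xs Aux (1, fun _ => True)) (hoff : Real η xs Aux (0, fun _ => False))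
    {D : Type} [Finite D] (cl : HeightOneSpectrum (𝓞 K) → ι → D)
    (hcl : ∀ u : HeightOneSpectrum (𝓞 K), (2 : 𝓞 K) ∈ u.asIdeal → ∀ a a', cl u a = cl u a' →
      xs 0 u a = xs 0 u a')
    (m : (u : HeightOneSpectrum (𝓞 K)) → SC (Kv u))
    (hsep : ∀ u : HeightOneSpectrum (𝓞 K), (2 : 𝓞 K) ∈ u.asIdeal → ∀ a₀ : ι,
      ∃ T : List (ZMod 2 × (ι → Prop)), (∀ t ∈ T, Real η xs Aux t) ∧
        (∀ t ∈ T, ∀ a, cl u a = cl u a₀ → t.2 a) ∧
        ∀ a, cl u a ≠ cl u a₀ → (∃ t ∈ T, ¬ t.2 a) ∨ (xs 0 u a = m u ∧ xs 0 u a₀ ≠ m u)) :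
    ∃ (C : CfgX K) (s : HeightOneSpectrum (𝓞 K) → ZMod 2) (W : Submodule (ZMod 2) C.V)
      (n : Ideal (𝓞 K)) (E : ℕ) (A₀ B₀ : 𝓞 K), C.Ok ∧ R₀ ⊆ C.R ∧
      (∀ v ∈ C.Z, ((2 : 𝓞 K) ∈ v.asIdeal ∧ s v = 0) ∨ (v ∈ Aux ∧ v ∉ R₀)) ∧
      TargetG C (fun u a => xs (s u) u a) W ∧ ClassG C (fun u => Lp (s u) u) n E A₀ B₀ := by
  have hPf : {v : HeightOneSpectrum (𝓞 K) | (2 : 𝓞 K) ∈ v.asIdeal}.Finite :=
    H30MQ.fin_mem two_ne_zero
  have _ : Finite {v : HeightOneSpectrum (𝓞 K) // (2 : 𝓞 K) ∈ v.asIdeal} := hPf.to_subtype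
  have _ : Fintype {v : HeightOneSpectrum (𝓞 K) // (2 : 𝓞 K) ∈ v.asIdeal} := Fintype.ofFinite _
  have _ : Fintype D := Fintype.ofFinite D
  let P := {v : HeightOneSpectrum (𝓞 K) // (2 : 𝓞 K) ∈ v.asIdeal}
  -- the tests
  obtain ⟨T, hT⟩ : ∃ T : P → D → List (ZMod 2 × (ι → Prop)), ∀ p δ,
      (∀ t ∈ T p δ, Real η xs Aux t) ∧ (∀ t ∈ T p δ, ∀ a, cl p.1 a = δ → t.2 a) ∧
        ∀ a, cl p.1 a ≠ δ → (∃ t ∈ T p δ, ¬ t.2 a) ∨
          (xs 0 p.1 a = m p.1 ∧ ∃ a₀, cl p.1 a₀ = δ ∧ xs 0 p.1 a₀ ≠ m p.1) := by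
    have h : ∀ (p : P) (δ : D), ∃ T : List (ZMod 2 × (ι → Prop)),
      (∀ t ∈ T, Real η xs Aux t) ∧ (∀ t ∈ T, ∀ a, cl p.1 a = δ → t.2 a) ∧
        ∀ a, cl p.1 a ≠ δ → (∃ t ∈ T, ¬ t.2 a) ∨
          (xs 0 p.1 a = m p.1 ∧ ∃ a₀, cl p.1 a₀ = δ ∧ xs 0 p.1 a₀ ≠ m p.1) := by
      intro p δ
      by_cases hδ : ∃ a₀, cl p.1 a₀ = δ
      · obtain ⟨a₀, rfl⟩ := hδ
        obtain ⟨T, h1, h2, h3⟩ := hsep p.1 p.2 a₀
        refine ⟨T, h1, h2, fun a ha => ?_⟩
        rcases h3 a ha with h4 | ⟨h4, h5⟩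
        · exact Or.inl h4
        · exact Or.inr ⟨h4, a₀, rfl, h5⟩
      · refine ⟨[(0, fun _ => False)], ?_, ?_, ?_⟩
        · intro t ht
          rw [List.mem_singleton.1 ht]
          exact hoff
        · intro t _ a ha
          exact absurd ⟨a, ha⟩ hδ
        · intro a _
          exact Or.inl ⟨_, List.mem_singleton.2 rfl, fun h => h⟩
    exact ⟨fun p δ => (h p δ).choose, fun p δ => (h p δ).choose_spec⟩
  -- the classes of the types
  obtain ⟨yy, hyy0, hyy⟩ : ∃ yy : (p : P) → D → SC (Kv p.1), (∀ p δ, yy p δ ≠ 0) ∧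
      ∀ p a, yy p (cl p.1 a) = xs 0 p.1 a := by
    refine ⟨fun p δ => if h : ∃ a, cl p.1 a = δ then xs 0 p.1 h.choose else η p.1, ?_, ?_⟩
    · intro p δ
      by_cases h : ∃ a, cl p.1 a = δ
      · simp only [dif_pos h]
        exact hne p.1 p.2 _
      · simp only [dif_neg h]
        exact hη _
    · intro p a
      have h : ∃ a', cl p.1 a' = cl p.1 a := ⟨a, rfl⟩
      simp only [dif_pos h]
      exact hcl p.1 p.2 _ _ h.choose_spec
  obtain ⟨r, hr, hTr⟩ : ∃ r : ℕ, 0 < r ∧ ∀ p δ, (T p δ).length ≤ r := by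
    refine ⟨1 + ∑ p : P, ∑ δ : D, (T p δ).length, by omega, fun p δ => ?_⟩
    have h1 : (T p δ).length ≤ ∑ δ : D, (T p δ).length :=
      Finset.single_le_sum (f := fun δ => (T p δ).length) (fun _ _ => Nat.zero_le _)
        (Finset.mem_univ δ)
    have h2 : ∑ δ : D, (T p δ).length ≤ ∑ p : P, ∑ δ : D, (T p δ).length :=
      Finset.single_le_sum (f := fun p => ∑ δ : D, (T p δ).length) (fun _ _ => Nat.zero_le _)
        (Finset.mem_univ p)
    omega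
  obtain ⟨tt, htt⟩ : ∃ tt : P → Nd D r → ZMod 2 × (ι → Prop),
      (∀ p, tt p (some none) = (1, fun _ => True)) ∧
      (∀ p δ i b, tt p (some (some (δ, i, b))) = (T p δ).getD i.val (1, fun _ => True)) :=
    ⟨fun p n => match n with
      | some (some (δ, i, _)) => (T p δ).getD i.val (1, fun _ => True)
      | _ => (1, fun _ => True), fun _ => rfl, fun _ _ _ _ => rfl⟩
  have hgetD : ∀ (l : List (ZMod 2 × (ι → Prop))) (i : ℕ), l.getD i (1, fun _ => True) ∈ l ∨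
      l.getD i (1, fun _ => True) = (1, fun _ => True) := by
    intro l i
    by_cases hi : i < l.length
    · left
      rw [List.getD_eq_getElem _ _ hi]
      exact List.getElem_mem hi
    · right
      exact List.getD_eq_default _ _ (not_lt.1 hi)
  have hreal : ∀ p n, Real η xs Aux (tt p (some n)) := by
    intro p n
    rcases n with _ | ⟨δ, i, b⟩
    · rw [htt.1]
      exact hon
    · rw [htt.2]
      rcases hgetD (T p δ) i.val with h | h
      · exact (hT p δ).1 _ h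
      · rw [h]
        exact hon
  -- the places
  obtain ⟨f, hfi, hf⟩ := exists_inj_choice (α := HeightOneSpectrum (𝓞 K))
    (J := P × Option (D × Fin r × Bool))
    (fun j => {u : HeightOneSpectrum (𝓞 K) | u ∈ Aux ∧
      ∀ a, xs (tt j.1 (some j.2)).1 u a = if (tt j.1 (some j.2)).2 a then η u else 0})
    (fun j => hreal j.1 j.2) (R₀ : Set (HeightOneSpectrum (𝓞 K))) R₀.finite_toSet
  have hf2 : ∀ j, (2 : 𝓞 K) ∉ (f j).asIdeal := by
    intro j h
    apply hAux _ (hf j).1.1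
    have e1 : (6 : 𝓞 K) = 2 * 3 := by norm_num
    rw [e1]
    exact Ideal.mul_mem_right _ _ h
  let pl : P × Nd D r → HeightOneSpectrum (𝓞 K) := fun j => match j.2 with
    | none => j.1.1
    | some n => f (j.1, n)
  have hpl0 : ∀ p : P, pl (p, none) = p.1 := fun _ => rfl
  have hpl1 : ∀ (p : P) n, pl (p, some n) = f (p, n) := fun _ _ => rfl
  have hinj : Function.Injective pl := by
    rintro ⟨p, n⟩ ⟨p', n'⟩ h
    rcases n with _ | n <;> rcases n' with _ | n'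
    · rw [hpl0, hpl0] at h
      rw [Subtype.ext h]
    · rw [hpl0, hpl1] at h
      exact absurd (h ▸ p.2) (hf2 _)
    · rw [hpl0, hpl1] at h
      exact absurd (h ▸ p'.2) (hf2 _)
    · rw [hpl1, hpl1] at h
      have h1 := hfi h
      rw [Prod.mk.injEq] at h1
      rw [h1.1, h1.2]
  -- the configuration
  have hRf : {v : HeightOneSpectrum (𝓞 K) | (2 : 𝓞 K) ∉ v.asIdeal ∧
      (v ∈ R₀ ∨ (3 : 𝓞 K) ∈ v.asIdeal)}.Finite := by
    have h3f : {v : HeightOneSpectrum (𝓞 K) | (3 : 𝓞 K) ∈ v.asIdeal}.Finite := H30MQ.fin_mem (by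
      intro h
      have h1 : algebraMap (𝓞 K) K 3 = 0 := by rw [h, map_zero]
      rw [map_ofNat] at h1
      exact three_ne_zero h1)
    refine (R₀.finite_toSet.union h3f).subset ?_
    rintro v ⟨-, h | h⟩
    · exact Or.inl h
    · exact Or.inr h
  obtain ⟨C, hCZ, hCR⟩ : ∃ C : CfgX K, C.Z = Finset.univ.image pl ∧ C.R = hRf.toFinset :=
    ⟨⟨_, _⟩, rfl, rfl⟩
  have hZ : ∀ u, u ∈ C.Z ↔ ∃ j, pl j = u := by
    intro u
    rw [hCZ, Finset.mem_image]
    exact ⟨fun ⟨j, _, h⟩ => ⟨j, h⟩, fun ⟨j, h⟩ => ⟨j, Finset.mem_univ _, h⟩⟩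
  have hR : ∀ v, v ∈ C.R ↔ (2 : 𝓞 K) ∉ v.asIdeal ∧ (v ∈ R₀ ∨ (3 : 𝓞 K) ∈ v.asIdeal) := by
    intro v
    rw [hCR, Set.Finite.mem_toFinset]
    rfl
  have hmem2 : ∀ v : HeightOneSpectrum (𝓞 K), (2 : 𝓞 K) ∈ v.asIdeal → v ∈ C.Z := fun v hv =>
    (hZ v).2 ⟨(⟨v, hv⟩, none), rfl⟩
  have hC : C.Ok := by
    refine ⟨hmem2, fun v hv => ((hR v).1 hv).1, fun v hv => (hR v).2 ⟨fun h2 => ?_, Or.inr hv⟩⟩
    apply v.isPrime.ne_top
    rw [Ideal.eq_top_iff_one]
    have e1 : (1 : 𝓞 K) = 3 - 2 := by norm_num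
    rw [e1]
    exact v.asIdeal.sub_mem hv h2
  have hZR : ∀ v ∈ C.Z, v ∉ C.R := by
    intro v hv hvR
    obtain ⟨j, rfl⟩ := (hZ v).1 hv
    obtain ⟨h2, h3⟩ := (hR _).1 hvR
    obtain ⟨p, n⟩ := j
    rcases n with _ | n
    · exact h2 p.2
    · rw [hpl1] at h2 h3
      rcases h3 with h3 | h3
      · exact (hf (p, n)).2 h3
      · apply hAux _ (hf (p, n)).1.1
        have e1 : (6 : 𝓞 K) = 2 * 3 := by norm_num
        rw [e1]
        exact Ideal.mul_mem_left _ _ h3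
  -- the signs
  let S' : P × Nd D r → ZMod 2 := fun j => match j.2 with
    | none => 0
    | some n => (tt j.1 (some n)).1
  obtain ⟨s, hs⟩ : ∃ s : HeightOneSpectrum (𝓞 K) → ZMod 2, ∀ j, s (pl j) = S' j :=
    ⟨Function.extend pl S' 0, fun j => hinj.extend_apply S' 0 j⟩
  have hs0 : ∀ p : P, s p.1 = 0 := fun p => hs (p, none)
  have hs1 : ∀ (p : P) n, s (f (p, n)) = (tt p (some n)).1 := fun p n => hs (p, some n)
  obtain ⟨n, E, A₀, B₀, hcls⟩ := exists_classG hC (Lp := fun u => Lp (s u) u)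
    (fun u hu => by
      obtain ⟨N, hN⟩ := hdy u hu
      refine ⟨N, hN.1, ?_⟩
      have h0 : s u = 0 := hs0 ⟨u, hu⟩
      simp only [h0]
      exact hN.2)
    (fun u hu h2 => by
      obtain ⟨⟨p, n⟩, rfl⟩ := (hZ u).1 hu
      rcases n with _ | n
      · exact absurd p.2 h2
      · exact hax _ (hf (p, n)).1.1 _) hZR
  obtain ⟨W, hW⟩ := exists_targetW hC hH hr pl hinj hZ (fun u a => xs (s u) u a) η hη
    (fun p a => cl p.1 a) (fun p δ i a => ((T p δ).getD i.val (1, fun _ => True)).2 a)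
    (by
      intro p a i
      rcases hgetD (T p (cl p.1 a)) i.val with h | h
      · exact (hT p (cl p.1 a)).2.1 _ h a rfl
      · rw [h]
        trivial)
    yy hyy0 (fun p => m p.1)
    (by
      intro p δ a hδ
      rcases (hT p δ).2.2 a (fun h => hδ h.symm) with ⟨t, ht, hta⟩ | ⟨h1, a₀, h2, h3⟩
      · left
        obtain ⟨i, hi, hit⟩ := List.mem_iff_getElem.1 ht
        refine ⟨⟨i, lt_of_lt_of_le hi (hTr p δ)⟩, ?_⟩
        rw [List.getD_eq_getElem _ _ hi, hit]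
        exact hta
      · right
        rw [← h2]
        refine ⟨(hyy p a).trans h1, ?_⟩
        rw [hyy p a₀]
        exact h3)
    (by
      intro p a
      show xs (s p.1) p.1 a = yy p (cl p.1 a)
      rw [hyy, hs0])
    (by
      intro p a
      show xs (s (f (p, none))) (f (p, none)) a = η (f (p, none))
      have h1 := (hf (p, none)).1.2 a
      rw [hs1]
      rw [htt.1] at h1 ⊢
      rw [h1]
      exact if_pos trivial)
    (by
      intro p δ i b a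
      show xs (s (f (p, some (δ, i, b)))) (f (p, some (δ, i, b))) a = _
      have h1 := (hf (p, some (δ, i, b))).1.2 a
      rw [hs1]
      rw [htt.2] at h1 ⊢
      exact h1)
  refine ⟨C, s, W, n, E, A₀, B₀, hC, fun v hv => (hR v).2 ⟨hR₀ v hv, Or.inl hv⟩, ?_, hW, hcls⟩
  intro v hv
  obtain ⟨⟨p, n⟩, rfl⟩ := (hZ v).1 hv
  rcases n with _ | n
  · exact Or.inl ⟨p.2, hs0 p⟩
  · exact Or.inr ⟨(hf (p, n)).1.1, (hf (p, n)).2⟩

end H76AB
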