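import Pool.Agent.H30.MG.Lb
import Pool.Agent.H30.MQ.Ch
import Pool.Agent.H30.CY.Up
import Pool.Agent.H42.PC.BDeg
import Pool.Agent.H73.P2.Cm

/-!
Project MG (MP_78d38b_nt): Frobenius elements and decomposition groups (no row, proved).
-/

set_option autoImplicit false
set_option linter.unusedSectionVars false
open scoped Classical

open WithZero NumberField IsDedekindDomain H76PP H36CY H30MG H30CY Pool.Agent.H42.PC

namespace H76AB

section One

theorem v_coe {K : Type} [Field K] [NumberField K] (v : HeightOneSpectrum (𝓞 K)) (x : K) :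
    Valued.v (algebraMap K (v.adicCompletion K) x) = v.valuation K x :=
  HeightOneSpectrum.valuedAdicCompletion_eq_valuation' v x

variable {K N : Type} [Field K] [NumberField K] [Field N] [NumberField N] [Algebra K N]

theorem stb_of_mem {W : HeightOneSpectrum (𝓞 N)} {g : N ≃ₐ[K] N}
    (h : ∀ x : 𝓞 N, x ∈ W.asIdeal ↔ g • x ∈ W.asIdeal) : g ∈ Dec K W := by
  obtain ⟨W2, hW2, -⟩ := Pool.Agent.H10.exists_conj g W
  have hWW : W2 = W := by
    apply HeightOneSpectrum.ext
    ext x
    have e1 : x ∈ W2.asIdeal ↔ W2.valuation N (algebraMap (𝓞 N) N x) < 1 :=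
      (W2.valuation_lt_one_iff_mem x).symm
    have e2 : W.valuation N (algebraMap (𝓞 N) N (g • x)) < 1 ↔ g • x ∈ W.asIdeal :=
      W.valuation_lt_one_iff_mem (g • x)
    have e3 : algebraMap (𝓞 N) N (g • x) = g (algebraMap (𝓞 N) N x) := rfl
    rw [e1, ← hW2, ← e3, e2]
    exact (h x).symm
  rw [mem_dec]
  intro y
  rw [hW2, hWW]

theorem mem_of_dec {W : HeightOneSpectrum (𝓞 N)} {g : N ≃ₐ[K] N} (hg : g ∈ Dec K W) (x : 𝓞 N) :
    x ∈ W.asIdeal ↔ g • x ∈ W.asIdeal := by
  rw [← W.valuation_lt_one_iff_mem (K := N), ← W.valuation_lt_one_iff_mem (K := N)]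
  have e4 := mem_dec.1 hg (algebraMap (𝓞 N) N x)
  have e3 : algebraMap (𝓞 N) N (g • x) = g (algebraMap (𝓞 N) N x) := rfl
  rw [← e3] at e4
  exact iff_of_eq (congrArg (fun t => t < 1) e4.symm)

open scoped Pointwise in
theorem stab_of_dec {W : HeightOneSpectrum (𝓞 N)} {g : N ≃ₐ[K] N} (hg : g ∈ Dec K W) :
    g ∈ MulAction.stabilizer (N ≃ₐ[K] N) W.asIdeal := by
  rw [MulAction.mem_stabilizer_iff]
  ext x
  rw [Ideal.mem_pointwise_smul_iff_inv_smul_mem, mem_of_dec hg, smul_inv_smul]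

open scoped Pointwise in
/-- The decomposition group of an unramified prime is generated by a Frobenius element. -/
theorem dec_frob [IsGalois K N] {W : HeightOneSpectrum (𝓞 N)} (hv : Un K N (dn K W))
    {g : N ≃ₐ[K] N} (hg : IsArithFrobAt (𝓞 K) g W.asIdeal) : Dec K W = Subgroup.zpowers g := by
  have hwp := W.isPrime
  have hvp := (dn K W).isPrime
  have hov : W.asIdeal.LiesOver (dn K W).asIdeal := ⟨rfl⟩
  have : Finite (𝓞 K ⧸ (dn K W).asIdeal) := Ideal.finiteQuotientOfFreeOfNeBot _ (dn K W).ne_bot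
  have : Finite (𝓞 N ⧸ W.asIdeal) := Ideal.finiteQuotientOfFreeOfNeBot _ W.ne_bot
  have hgD : g ∈ Dec K W := by
    apply stb_of_mem
    intro x
    have h1 := hg.mem_stabilizer
    rw [MulAction.mem_stabilizer_iff] at h1
    constructor
    · intro hx
      rw [← h1]
      exact Ideal.smul_mem_pointwise_smul _ _ _ hx
    · intro hx
      rw [← h1] at hx
      exact Ideal.smul_mem_pointwise_smul_iff.1 hx
  have hle : Subgroup.zpowers g ≤ Dec K W := by
    rw [Subgroup.zpowers_le]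
    exact hgD
  refine (SetLike.coe_injective (Set.eq_of_subset_of_ncard_le (s := (Subgroup.zpowers g : Set (N ≃ₐ[K] N)))
    (t := (Dec K W : Set (N ≃ₐ[K] N))) hle ?_ (Set.toFinite _))).symm
  -- inertia is trivial
  have hin : Nat.card (Ideal.inertia (N ≃ₐ[K] N) W.asIdeal) = 1 := by
    rw [Nat.card_eq_one_iff_unique]
    refine ⟨⟨fun a b => ?_⟩, ⟨1⟩⟩
    rw [Subtype.ext_iff, hv W hov a.1 (fun x => a.2 x), hv W hov b.1 (fun x => b.2 x)]
  have hst := Ideal.card_stabilizer_eq_card_inertia_mul_finrank (G := N ≃ₐ[K] N)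
    (dn K W).asIdeal W.asIdeal
  rw [hin, one_mul] at hst
  have h1 : (Dec K W : Set (N ≃ₐ[K] N)).ncard ≤ W.asIdeal.inertiaDeg (𝓞 K) := by
    rw [← hst]
    exact Set.ncard_le_ncard (fun h hh => stab_of_dec hh) (Set.toFinite _)
  refine h1.trans ?_
  -- the order of `g` is at least the residue degree
  have h2 : (Subgroup.zpowers g : Set (N ≃ₐ[K] N)).ncard = orderOf g := by
    rw [← Nat.card_zpowers]
    rfl
  rw [h2]
  obtain ⟨q, hq⟩ : ∃ q : ℕ, q = Nat.card (𝓞 K ⧸ W.asIdeal.under (𝓞 K)) := ⟨_, rfl⟩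
  have hq2 : 2 ≤ q := by
    rw [hq]
    exact BDeg_two_le (dn K W)
  have hpow : ∀ n : ℕ, ∀ x : 𝓞 N, (g ^ n) • x - x ^ q ^ n ∈ W.asIdeal := by
    intro n
    induction n with
    | zero =>
      intro x
      rw [pow_zero, one_smul, pow_zero, pow_one, sub_self]
      exact Ideal.zero_mem _
    | succ n ih =>
      intro x
      have h3 := ih (g • x)
      have h4 : g • x - x ^ q ∈ W.asIdeal := by
        have h5 := hg x
        rw [← hq] at h5
        exact h5
      rw [pow_succ, mul_smul, pow_succ, pow_mul']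
      have h6 : (g • x) ^ q ^ n - (x ^ q) ^ q ^ n ∈ W.asIdeal :=
        W.asIdeal.mem_of_dvd (sub_dvd_pow_sub_pow _ _ _) h4
      have h7 := Ideal.add_mem _ h3 h6
      rw [sub_add_sub_cancel] at h7
      exact h7
  have hcard : Nat.card (𝓞 N ⧸ W.asIdeal) ≤ q ^ orderOf g := by
    let _ : Field (𝓞 N ⧸ W.asIdeal) := @Ideal.Quotient.field _ _ W.asIdeal W.isMaximal
    refine BDeg_card_le (F := 𝓞 N ⧸ W.asIdeal) (Nat.one_lt_pow (orderOf_pos g).ne' (by omega)) ?_
    intro y
    obtain ⟨x, rfl⟩ := Ideal.Quotient.mk_surjective y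
    have h8 := hpow (orderOf g) x
    rw [pow_orderOf_eq_one, one_smul] at h8
    have h9 := Ideal.Quotient.eq_zero_iff_mem.2 h8
    rw [map_sub, map_pow] at h9
    exact h9
  have habs := Ideal.absNorm_pow_inertiaDeg (dn K W).asIdeal W.asIdeal
  have e1 : Ideal.absNorm (dn K W).asIdeal = q := by
    rw [hq]
    rfl
  have e2 : Ideal.absNorm W.asIdeal = Nat.card (𝓞 N ⧸ W.asIdeal) := rfl
  rw [e1, e2] at habs
  rw [← habs] at hcard
  exact (Nat.pow_le_pow_iff_right (by omega)).1 hcard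

/-- Infinitely many places with given decomposition group `⟨g⟩`. -/
theorem exists_dec [IsGalois K N] (g : N ≃ₐ[K] N) (F : Set (HeightOneSpectrum (𝓞 K)))
    (hF : F.Finite) : {u : HeightOneSpectrum (𝓞 K) | u ∉ F ∧ Un K N u ∧
      ∃ W : HeightOneSpectrum (𝓞 N), dn K W = u ∧ Dec K W = Subgroup.zpowers g}.Infinite := by
  have h1 := ((H30MQ.frob_infK (K := K) g).sdiff hF).sdiff (un_finite (K := K) (L := N))
  refine h1.mono ?_
  rintro u ⟨⟨⟨g', hg', W, hW, hfr⟩, hu⟩, hun⟩
  have hun' : Un K N u := not_not.1 hun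
  have hdn : dn K W = u := HeightOneSpectrum.ext hW.over.symm
  refine ⟨hu, hun', W, hdn, ?_⟩
  rw [← hg']
  rw [← hdn] at hun'
  exact dec_frob hun' hfr

theorem dec_conj [IsGalois K N] {W W' : HeightOneSpectrum (𝓞 N)} (h : dn K W' = dn K W) :
    ∃ τ : N ≃ₐ[K] N, ∀ s : N ≃ₐ[K] N, s ∈ Dec K W' ↔ τ * s * τ⁻¹ ∈ Dec K W := by
  obtain ⟨g, hg⟩ := conj_exists h
  refine ⟨g, fun s => ?_⟩
  rw [mem_dec, mem_dec]
  constructor
  · intro h z
    have h1 := h (g⁻¹ z)
    rw [hg, hg] at h1
    have h2 : g (g⁻¹ z) = z := g.apply_symm_apply z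
    rw [h2] at h1
    exact h1
  · intro h y
    rw [hg, hg]
    have h1 := h (g y)
    have h2 : (g * s * g⁻¹) (g y) = g (s y) := by
      have h3 : g⁻¹ (g y) = y := g.symm_apply_apply y
      rw [AlgEquiv.mul_apply, AlgEquiv.mul_apply, h3]
    rw [h2] at h1
    exact h1

/-- If one decomposition group above `u` is normal then all are equal. -/
theorem dec_eq [IsGalois K N] {W W' : HeightOneSpectrum (𝓞 N)} (h : dn K W' = dn K W)
    (hn : (Dec K W).Normal) : Dec K W' = Dec K W := by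
  obtain ⟨τ, hτ⟩ := dec_conj h
  ext s
  rw [hτ]
  constructor
  · intro h1
    have h2 := hn.conj_mem _ h1 τ⁻¹
    rw [inv_inv] at h2
    have h3 : τ⁻¹ * (τ * s * τ⁻¹) * τ = s := by group
    rw [h3] at h2
    exact h2
  · intro h1
    exact hn.conj_mem _ h1 τ

/-- The decomposition groups of a place which splits completely are trivial. -/
theorem dec_split [IsGalois K N] {v : HeightOneSpectrum (𝓞 K)} (ι : N →+* v.adicCompletion K)
    (hι : ∀ x : K, ι (algebraMap K N x) = algebraMap K (v.adicCompletion K) x)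
    {W : HeightOneSpectrum (𝓞 N)} (hW : dn K W = v) : Dec K W = ⊥ := by
  obtain ⟨W₁, hW₁⟩ : ∃ W₁, W₁ = H73P2.Cm_pl v ι hι := ⟨_, rfl⟩
  have hmem : ∀ x : 𝓞 N, x ∈ W₁.asIdeal ↔ Valued.v (ι (algebraMap (𝓞 N) N x)) < 1 := by
    intro x
    rw [hW₁]
    exact H73P2.Cm_mem v ι hι x
  have hdn : dn K W₁ = v := by
    apply HeightOneSpectrum.ext
    ext x
    have e1 : x ∈ (dn K W₁).asIdeal ↔ algebraMap (𝓞 K) (𝓞 N) x ∈ W₁.asIdeal := Iff.rfl
    rw [e1, hmem, ← IsScalarTower.algebraMap_apply (𝓞 K) (𝓞 N) N,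
      IsScalarTower.algebraMap_apply (𝓞 K) K N, hι,
      v_coe, v.valuation_lt_one_iff_mem]
  -- the valuation of `W₁` is comparable with the valuation of `K_v`
  have hlt : ∀ z : N, W₁.valuation N z < 1 → Valued.v (ι z) < 1 := by
    intro z hz
    obtain ⟨n, ⟨d, hd⟩, hnd⟩ := HeightOneSpectrum.exists_primeCompl_mul_eq_of_integer W₁ z hz.le
    have hd' : d ∉ W₁.asIdeal := hd
    have hnd' : z * algebraMap (𝓞 N) N d = algebraMap (𝓞 N) N n := hnd
    have hWd : W₁.valuation N (algebraMap (𝓞 N) N d) = 1 :=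
      (W₁.valuation_eq_one_iff_notMem (K := N) (r := d)).2 hd'
    have hn : n ∈ W₁.asIdeal := by
      rw [← W₁.valuation_lt_one_iff_mem (K := N)]
      have h0 : W₁.valuation N (algebraMap (𝓞 N) N n) < 1 := by
        rw [← hnd', map_mul, hWd, mul_one]
        exact hz
      exact h0
    have hvd : Valued.v (ι (algebraMap (𝓞 N) N d)) = 1 := by
      have h1 : ¬ Valued.v (ι (algebraMap (𝓞 N) N d)) < 1 := fun h => hd' ((hmem d).2 h)
      have h2 : Valued.v (ι (algebraMap (𝓞 N) N d)) ≤ 1 := by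
        refine H73P2.Cm_pl_le v ι hι _ ?_
        exact HeightOneSpectrum.valuation_le_one _ _
      exact le_antisymm h2 (not_lt.1 h1)
    have h3 := congrArg (fun t => Valued.v (ι t)) hnd'
    simp only [map_mul, hvd, mul_one] at h3
    rw [h3]
    exact (hmem n).1 hn
  have hle : ∀ z : N, Valued.v (ι z) ≤ 1 → W₁.valuation N z ≤ 1 := by
    intro z hz
    by_contra hcon
    rw [not_le] at hcon
    have hz0 : z ≠ 0 := by
      rintro rfl
      rw [map_zero] at hcon
      exact absurd hcon (not_lt.2 zero_le_one)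
    have h1 : W₁.valuation N z⁻¹ < 1 := by
      rw [map_inv₀]
      exact inv_lt_one_of_one_lt₀ hcon
    have h2 := hlt _ h1
    rw [map_inv₀, map_inv₀] at h2
    have h3 : 0 < Valued.v (ι z) := by
      rw [zero_lt_iff, Valuation.ne_zero_iff, map_ne_zero]
      exact hz0
    exact absurd ((inv_lt_one₀ h3).1 h2) (not_lt.2 hz)
  have h₁ : ∀ g : N ≃ₐ[K] N, Stb K W₁ g → g = 1 := by
    intro g hg
    apply AlgEquiv.ext
    intro x
    show g x = x
    by_contra hne
    have hne' : g x - x ≠ 0 := sub_ne_zero.2 hne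
    -- a small element of `K`
    obtain ⟨π, hπ⟩ := v.valuation_exists_uniformizer K
    have hπ0 : π ≠ 0 := by
      rintro rfl
      rw [map_zero] at hπ
      exact absurd hπ.symm (by simp)
    have hπ1 : W₁.valuation N (algebraMap K N π) < 1 := by
      obtain ⟨e, he, hv⟩ := val_dn_pow (N₀ := K) W₁
      rw [hv, hdn, hπ]
      refine pow_lt_one₀ zero_le ?_ he.ne'
      exact (WithZero.exp_lt_exp.2 (by norm_num : (-1 : ℤ) < 0)).trans_eq WithZero.exp_zero
    obtain ⟨n, hn⟩ := exists_pow_lt₀ hπ1 (Units.mk0 (W₁.valuation N (g x - x))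
      ((Valuation.ne_zero_iff _).2 hne'))
    rw [Units.val_mk0] at hn
    have hιπ : ι (algebraMap K N (π ^ n)) ≠ 0 :=
      (map_ne_zero _).2 ((map_ne_zero _).2 (pow_ne_zero _ hπ0))
    obtain ⟨t, ht⟩ := (HeightOneSpectrum.denseRange_algebraMap (K := K) v).mem_nhds
      (Te_nhd (ι x) hιπ)
    have ht' : Valued.v (algebraMap K (v.adicCompletion K) t - ι x) <
        Valued.v (ι (algebraMap K N (π ^ n))) := ht
    have h4 : Valued.v (ι ((x - algebraMap K N t) / algebraMap K N (π ^ n))) ≤ 1 := by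
      rw [map_div₀, map_div₀, map_sub, hι, Valuation.map_sub_swap]
      refine (div_le_one₀ ?_).2 ht'.le
      rw [zero_lt_iff, Valuation.ne_zero_iff]
      exact hιπ
    have h5 := hle _ h4
    rw [map_div₀] at h5
    have h6 : W₁.valuation N (x - algebraMap K N t) ≤ W₁.valuation N (algebraMap K N (π ^ n)) := by
      refine (div_le_one₀ ?_).1 h5
      rw [zero_lt_iff, Valuation.ne_zero_iff, map_ne_zero]
      exact pow_ne_zero _ hπ0
    have h7 : g x - x = g (x - algebraMap K N t) - (x - algebraMap K N t) := by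
      rw [map_sub, g.commutes]
      ring
    have h8 : W₁.valuation N (g x - x) ≤ W₁.valuation N (x - algebraMap K N t) := by
      rw [h7]
      refine (Valuation.map_sub _ _ _).trans ?_
      rw [hg, max_self]
    rw [map_pow, map_pow] at h6
    exact absurd (h8.trans h6) (not_le.2 hn)
  rw [eq_bot_iff]
  intro g hg
  rw [Subgroup.mem_bot]
  exact triv_conj (W := W₁) (W' := W) (hW.trans hdn.symm) h₁ g hg

end One

section Two

variable {K N₀ N : Type} [Field K] [NumberField K] [Field N₀] [NumberField N₀] [Field N] [NumberField N]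
  [Algebra K N₀] [Algebra N₀ N] [Algebra K N] [IsScalarTower K N₀ N]

/-- The decomposition group maps onto the decomposition group. -/
theorem dec_map [IsGalois K N₀] [IsGalois K N] (W : HeightOneSpectrum (𝓞 N)) :
    (Dec K W).map (AlgEquiv.restrictNormalHom N₀) = Dec K (dn N₀ W) := by
  ext g
  rw [Subgroup.mem_map]
  constructor
  · rintro ⟨h, hh, rfl⟩
    exact stb_down hh
  · intro hg
    obtain ⟨h, hh, e⟩ := stb_lift (W := W) hg
    exact ⟨h, hh, e⟩

/-- Elements of the decomposition group are trivial on an extension in which the place splits completely. -/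
theorem dec_triv [IsGalois K N₀] [IsGalois K N] {W : HeightOneSpectrum (𝓞 N)}
    (ι : N₀ →+* (dn K W).adicCompletion K)
    (hι : ∀ x : K, ι (algebraMap K N₀ x) = algebraMap K ((dn K W).adicCompletion K) x)
    {g : N ≃ₐ[K] N} (hg : g ∈ Dec K W) (x : N₀) : g (algebraMap N₀ N x) = algebraMap N₀ N x := by
  have hdn : dn K (dn N₀ W) = dn K W := dn_tower W
  have h1 : AlgEquiv.restrictNormalHom N₀ g ∈ Dec K (dn N₀ W) := stb_down hg
  rw [dec_split ι hι hdn, Subgroup.mem_bot] at h1
  have h2 : algebraMap N₀ N (AlgEquiv.restrictNormalHom N₀ g x) = g (algebraMap N₀ N x) :=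
    AlgEquiv.restrictNormal_commutes g N₀ x
  rw [h1] at h2
  exact h2.symm

end Two

end H76AB
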