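import Pool.Agent.H76.MX.Tr

/-!
Project ABX (MP_78d38b_nt): the target subgroup for an arbitrary index type of twists and general separating
tests (no row, proved).
-/

set_option autoImplicit false
set_option linter.unusedSectionVars false
open scoped Classical

open WithZero NumberField IsDedekindDomain H38RT
open H38T1 (SC sc scu rep eo la si Pri OddP tp unif ka)
open H76PP H36MX H76MQ H76MX

namespace H76AB

theorem Tg_abs {P D : Type} [Fintype P] [Fintype D] {r : ℕ} (hr : 0 < r)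
    {X : P × Nd D r → Type} [∀ j, AddCommGroup (X j)] [∀ j, Module (ZMod 2) (X j)]
    [∀ j, Finite (X j)] (h : ∀ j, X j →ₗ[ZMod 2] X j →ₗ[ZMod 2] ZMod 2)
    (hsy : ∀ j x y, h j x y = h j y x) (hnd : ∀ j x, x ≠ 0 → ∃ y, h j x y = 1)
    (η : ∀ j, X j) (hη : ∀ j, η j ≠ 0) (y : (p : P) → D → X (p, none))
    (hy : ∀ p δ, y p δ ≠ 0) (on : P → D → Fin r → D → Prop) (hon : ∀ p δ i, on p δ i δ)
    (hoff : ∀ p δ δ', δ ≠ δ' → ∃ i, ¬ on p δ i δ') :
    ∃ W₀ : Submodule (ZMod 2) (∀ j, X j × X j),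
      (∀ p ∈ W₀, ∑ j, h j (p j).1 (p j).2 = 0) ∧
      Nat.card W₀ = ∏ j, Nat.card (X j) ∧
      ∀ (δ₀ : D) (g : ∀ j, X j), (∀ p, g (p, none) = y p δ₀) →
        (∀ p, g (p, some none) = η (p, some none)) →
        (∀ p δ i b, g (p, some (some (δ, i, b))) =
          if on p δ i δ₀ then η (p, some (some (δ, i, b))) else 0) →
        ∀ q ∈ W₀, (∀ j, ((q j).1 = 0 ∨ (q j).1 = g j) ∧ h j (q j).2 (g j) = 0) → q = 0 := by
  choose μ hμ using fun j => hnd j (η j) (hη j)
  choose μ' hμ' using fun p δ => hnd (p, none) (y p δ) (hy p δ)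
  obtain ⟨lam, hl1, hl2⟩ : ∃ lam : (j : P × Nd D r) → (P × Nd D r) → X j,
      (∀ p n k, lam (p, some n) k = μ (p, some n)) ∧
      (∀ p δ i k, lam (p, none) (k, ndA δ i) = μ' p δ) :=
    ⟨fun j k => match j with
      | (p, some n) => μ (p, some n)
      | (p, none) => match k.2 with
        | some (some (δ, _, false)) => μ' p δ
        | _ => 0, fun _ _ _ => rfl, fun _ _ _ _ => rfl⟩
  refine ⟨Wst h 0 EJ lam, fun p hp => Q_W0 (Ed := EJ) hsy (fun _ _ e => EJ_symm e) EJ_irr hp,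
    card_W hnd 0 EJ lam, ?_⟩
  intro δ₀ g g0 g1 g2 q hq hloc
  refine graph_zero0 hsy hnd hr g (fun p i δ => on p δ i δ₀) δ₀
    (fun p i => hon p δ₀ i) (fun p δ hδ => hoff p δ δ₀ hδ) ?_ ?_ ?_ ?_ hq hloc
  · intro p δ i hon z
    refine ⟨fun _ => ?_, fun _ => ?_⟩
    · rw [hl1, g2 p δ i false, if_pos hon]
      exact hμ _
    · rw [hl1, g2 p δ i true, if_pos hon]
      exact hμ _
  · intro p δ i hon
    refine ⟨?_, ?_⟩
    · rw [g2 p δ i false, if_neg hon]
    · rw [g2 p δ i true, if_neg hon]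
  · intro p z _
    rw [hl1, g1]
    exact hμ _
  · intro p i _
    rw [hl2, g0]
    exact hμ' _ _

variable {K : Type} [Field K] [NumberField K]

/-- The target of the walk, for an arbitrary index type: a singular subgroup of at least `2^m` elements which
meets the local conditions of every index only in zero. -/
structure TargetG (C : CfgX K) {ι : Type*} (x : (u : HeightOneSpectrum (𝓞 K)) → ι → SC (Kv u))
    (W : Submodule (ZMod 2) C.V) : Prop where
  sing : ∀ p ∈ W, C.Q p = 0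
  card : 2 ^ (Module.finrank ℚ K + 2 * C.Z.card) ≤ Nat.card W
  zero : ∀ i, ∀ p ∈ W, (∀ u : {u // u ∈ C.Z}, LW (x u.1 i) (p u).1 (p u).2) → p = 0

theorem TargetG.target {C : CfgX K} {ι : Type*} {x : (u : HeightOneSpectrum (𝓞 K)) → ι → SC (Kv u)}
    {W : Submodule (ZMod 2) C.V} (h : TargetG C x W) : Target C ∅ (fun _ _ => 0) W :=
  ⟨h.sing, h.card, fun _ hd => absurd hd (Set.notMem_empty _)⟩

/-- **The target subgroup.** `P`: the places above two, `D`: the types of twists; at the places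
`pl (p, ndA δ i)`, `pl (p, ndB δ i)` the class of a twist of type `χ` is `η` if `on p δ i χ` and `0` otherwise. -/
theorem exists_targetG {C : CfgX K} (hC : C.Ok) (hH : ∀ v : HeightOneSpectrum (𝓞 K), HF (Kv v))
    {P D : Type} [Fintype P] [Fintype D] {r : ℕ} (hr : 0 < r)
    (pl : P × Nd D r → HeightOneSpectrum (𝓞 K)) (hinj : Function.Injective pl)
    (hZ : ∀ u, u ∈ C.Z ↔ ∃ j, pl j = u) {ι : Type*}
    (x : (u : HeightOneSpectrum (𝓞 K)) → ι → SC (Kv u))
    (η : (u : HeightOneSpectrum (𝓞 K)) → SC (Kv u)) (hη : ∀ u, η u ≠ 0)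
    (cl : ι → D) (on : P → D → Fin r → D → Prop) (hon : ∀ p δ i, on p δ i δ)
    (hoff : ∀ p δ δ', δ ≠ δ' → ∃ i, ¬ on p δ i δ')
    (y : (p : P) → D → SC (Kv (pl (p, none)))) (hy : ∀ p δ, y p δ ≠ 0)
    (hx0 : ∀ p a, x (pl (p, none)) a = y p (cl a))
    (hx1 : ∀ p a, x (pl (p, some none)) a = η (pl (p, some none)))
    (hx2 : ∀ p δ i b a, x (pl (p, some (some (δ, i, b)))) a =
      if on p δ i (cl a) then η (pl (p, some (some (δ, i, b)))) else 0) :
    ∃ W : Submodule (ZMod 2) C.V, TargetG C x W := by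
  choose h hh using fun j => exists_hscL (hH (pl j))
  have hsy : ∀ j x y, h j x y = h j y x := fun j x y => by rw [hh, hh, H76MX.hsc_comm]
  have hnd : ∀ j x, x ≠ 0 → ∃ y, h j x y = 1 := by
    intro j x hx
    obtain ⟨y, hy⟩ := H76MX.hsc_nd (hH (pl j)) hx
    exact ⟨y, by rw [hh]; exact hy⟩
  have hfin : ∀ j, Finite (SC (Kv (pl j))) := fun j => fin_scv _
  obtain ⟨W₀, h1, h2, h3⟩ := @Tg_abs P D _ _ r hr (fun j => SC (Kv (pl j)))
    (fun j => inferInstance) (fun j => inferInstance) hfin h hsy hnd (fun j => η (pl j))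
    (fun j => hη _) y hy on hon hoff
  obtain ⟨enc, henc⟩ : ∃ enc : D → 𝓞 K, Function.Injective enc :=
    ⟨fun δ => ((Fintype.equivFin D δ : ℕ) : 𝓞 K), fun δ δ' h =>
      (Fintype.equivFin D).injective (Fin.ext (Nat.cast_injective h))⟩
  obtain ⟨ch, hch⟩ : ∃ ch : 𝓞 K → Set ι, ∀ a b, b ∈ ch (enc (cl a)) ↔ cl b = cl a :=
    ⟨fun e => {b | enc (cl b) = e}, fun a b => henc.eq_iff⟩
  have hxx : ∀ (j : P × Nd D r) a a', cl a = cl a' → x (pl j) a = x (pl j) a' := by
    intro j a a' h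
    obtain ⟨p, n⟩ := j
    rcases n with _ | _ | ⟨δ, i, b⟩
    · rw [hx0, hx0, h]
    · rw [hx1, hx1]
    · rw [hx2, hx2, h]
  obtain ⟨W, hW⟩ := target_of hC pl hinj hZ (Set.range fun a => enc (cl a))
    (fun u d => if h : (ch d).Nonempty then x u h.choose else 0) W₀
    (by
      intro p hp
      have h4 := h1 p hp
      simp only [hh] at h4
      exact h4) h2 (by
      rintro _ ⟨a, rfl⟩ q hq hloc
      have hne : (ch (enc (cl a))).Nonempty := ⟨a, (hch a a).2 rfl⟩
      have hcl : cl hne.choose = cl a := (hch a _).1 hne.choose_spec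
      simp only [dif_pos hne] at hloc
      refine h3 (cl a) (fun j => x (pl j) a) (fun p => hx0 p a) (fun p => hx1 p a)
        (fun p δ i b => hx2 p δ i b a) q hq fun j => ?_
      have h6 := hloc j
      rw [hxx j _ a hcl] at h6
      refine ⟨h6.1, ?_⟩
      rw [hh]
      exact h6.2)
  refine ⟨W, hW.sing, hW.card, fun a p hp h => hW.zero (enc (cl a)) ⟨a, rfl⟩ p hp fun u => ?_⟩
  have hne : (ch (enc (cl a))).Nonempty := ⟨a, (hch a a).2 rfl⟩
  have hcl : cl hne.choose = cl a := (hch a _).1 hne.choose_spec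
  obtain ⟨u, hu⟩ := u
  obtain ⟨j, rfl⟩ := (hZ u).1 hu
  have h1 := h ⟨pl j, hu⟩
  simp only [dif_pos hne]
  rw [hxx j _ a hcl]
  exact h1

end H76AB
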